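import Mathlib

set_option autoImplicit false

namespace Pool.Agent.Results.MP_93d35c_nt.Disproof

open Nat

lemma pc_sq (x : ℕ) : primeCounting (x * (x + 2)) = primeCounting ((x + 1) ^ 2) := by
  have h : (x + 1) ^ 2 = x * (x + 2) + 1 := by ring
  have hnp : ¬ Nat.Prime (x * (x + 2) + 1) := by
    rw [← h]; exact Nat.Prime.not_prime_pow (by norm_num)
  rw [h]
  unfold primeCounting primeCounting'
  rw [Nat.count_succ Nat.Prime (x * (x + 2) + 1)]
  simp [hnp]

lemma pc_le (n : ℕ) : primeCounting n ≤ n + 1 := by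
  unfold primeCounting primeCounting'
  exact Nat.count_le _

theorem result : ¬ ∃ n₀ : ℕ, ∀ x y : ℕ, 0 < x → 0 < y → n₀ ≤ x → n₀ ≤ y →
    primeCounting (x * y) ^ 2 ≤ primeCounting (x ^ 2) * primeCounting (y ^ 2) := by
  rintro ⟨n₀, h⟩
  set a : ℕ → ℕ := fun x => primeCounting (x ^ 2) with ha
  have hconv : ∀ x, n₀ + 2 ≤ x → a (x + 1) ^ 2 ≤ a x * a (x + 2) := by
    intro x hx
    have := h x (x + 2) (by omega) (by omega) (by omega) (by omega)
    rwa [pc_sq] at this
  have hmono : Monotone a := fun x y hxy => monotone_primeCounting (Nat.pow_le_pow_left hxy 2)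
  have hpos : ∀ x, 2 ≤ x → 0 < a x := by
    intro x hx
    have : a 2 ≤ a x := hmono hx
    have h2 : a 2 = 2 := by simp only [ha]; decide
    omega
  -- a strict increase somewhere beyond n₀ + 2
  obtain ⟨m, hm, hlt⟩ : ∃ m, n₀ + 2 ≤ m ∧ a m < a (m + 1) := by
    by_contra hc
    push Not at hc
    have hconst : ∀ k, a (n₀ + 2 + k) ≤ a (n₀ + 2) := by
      intro k
      induction k with
      | zero => simp
      | succ k ih => exact (hc (n₀ + 2 + k) (by omega)).trans ih
    obtain ⟨N, hN⟩ := (Filter.tendsto_atTop_atTop.1 tendsto_primeCounting) (a (n₀ + 2) + 1)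
    have h1 := hN ((n₀ + 2 + N) ^ 2) (le_trans (by omega) (Nat.le_self_pow (by norm_num) _))
    have h2 := hconst N
    simp only [ha] at h1 h2
    omega
  set r : ℝ := (a (m + 1) : ℝ) / a m with hr
  have ham : (0:ℝ) < a m := by exact_mod_cast hpos m (by omega)
  have hr1 : 1 < r := by
    rw [hr, lt_div_iff₀ ham, one_mul]; exact_mod_cast hlt
  have hstep : ∀ k, r * a (m + k) ≤ a (m + k + 1) := by
    intro k
    induction k with
    | zero => rw [hr]; simp only [add_zero]; rw [div_mul_cancel₀ _ ham.ne']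
    | succ k ih =>
      have h1 : ((a (m + k + 1) : ℝ)) ^ 2 ≤ a (m + k) * a (m + k + 2) := by
        exact_mod_cast hconv (m + k) (by omega)
      have hp : (0:ℝ) < a (m + k) := by exact_mod_cast hpos _ (by omega)
      have hp1 : (0:ℝ) < a (m + k + 1) := by exact_mod_cast hpos _ (by omega)
      have : r * a (m + k + 1) * a (m + k) ≤ a (m + k + 2) * a (m + k) := by nlinarith
      exact le_of_mul_le_mul_right this hp
  have hgrow : ∀ k, r ^ k ≤ a (m + k) := by
    intro k
    induction k with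
    | zero =>
      have := hpos m (by omega)
      simp only [pow_zero, add_zero]; exact_mod_cast this
    | succ k ih =>
      calc r ^ (k + 1) = r * r ^ k := by ring
        _ ≤ r * a (m + k) := by gcongr
        _ ≤ _ := hstep k
  have hub : ∀ k, (a (m + k) : ℝ) ≤ ((m:ℝ) + k) ^ 2 + 1 := by
    intro k
    have := pc_le ((m + k) ^ 2)
    exact_mod_cast this
  have hlim := tendsto_pow_const_div_const_pow_of_one_lt 2 hr1
  have hev := hlim.eventually (gt_mem_nhds (show (0:ℝ) < 1 / 5 by norm_num))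
  obtain ⟨N, hN⟩ := Filter.eventually_atTop.1 hev
  have h1 := hN (N + m + 1) (by omega)
  have h2 := (hgrow (N + m + 1)).trans (hub (N + m + 1))
  have hrp : 0 < r ^ (N + m + 1) := by positivity
  rw [div_lt_iff₀ hrp] at h1
  push_cast at h1 h2
  have hm0 : (0:ℝ) ≤ m := by positivity
  have hN0 : (0:ℝ) ≤ N := by positivity
  nlinarith [mul_nonneg hm0 hN0, mul_nonneg hm0 hm0, mul_nonneg hN0 hN0]

end Pool.Agent.Results.MP_93d35c_nt.Disproof
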